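import Mathlib
import Pool.Agent.Helper94.AN.Fin
import Pool.Agent.Helper18.SG.Main2

/-!
Reduced plane linear systems `L(d; m_1, ..., m_s)` through general points, the nine largest multiplicities
being arbitrary: non-speciality in every degree if `m_10` is at most exponentially large in terms of
`((d - m_1)/m_10)^(1/3)` and of `(max(V, T)/m_10²)^(1/6)` (`V` the room left by the nine largest points, `T` the number
of the conditions of the others), and outside an exponentially small window otherwise; and in every degree,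
without any condition on `d - m_1`, if `max(V, T)` is at least about `216 m_10³`.
-/

set_option autoImplicit false

namespace Pool.Agent.Helper94.NF.Merge

/-- There are constants `c, C > 0` with the following property. Let `m_0 ≥ m_1 ≥ ... ≥ m_{s-1} ≥ 0` (zero
beyond), `M = m_9`, `d ≥ m_0 + m_1 + m_2`, `V = C(d+2,2) - ∑_{i<9} C(m_i+1,2)`, `T = ∑_{9≤i<s} C(m_i+1,2)`.
Suppose that `M ≤ 1`, or `3d ≤ m_0 + ... + m_8`, or `V ≥ 216 M³ + 108 M²`, or `T ≥ 216 M³ + 123 M²`, or that for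
some real number `θ ≥ C` one has `d - m_0 ≥ θ³ M`, `max(V, T) ≥ θ⁶ M²` and (`M ≤ exp(c θ)` or
`|V - T| ≥ exp(-c θ) d M`). Then for `s` general points of the complex projective plane the space of the
forms of degree `d` with multiplicity `≥ m_i` at the `i`-th point has the expected dimension. -/
theorem result :
    ∃ c C : ℝ, 0 < c ∧ 0 < C ∧ ∀ (s : ℕ) (m : ℕ → ℕ) (d : ℕ), Antitone m →
      (∀ i, s ≤ i → m i = 0) → m 0 + m 1 + m 2 ≤ d →
      (m 9 ≤ 1 ∨ 3 * d ≤ ∑ i ∈ Finset.range 9, m i ∨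
        216 * m 9 ^ 3 + 108 * m 9 ^ 2 + ∑ i ∈ Finset.range 9, Nat.choose (m i + 1) 2 ≤
          Nat.choose (d + 2) 2 ∨
        216 * m 9 ^ 3 + 123 * m 9 ^ 2 ≤ ∑ i ∈ Finset.Ico 9 s, Nat.choose (m i + 1) 2 ∨
        ∃ θ : ℝ, C ≤ θ ∧ θ ^ 3 * (m 9 : ℝ) ≤ (d : ℝ) - m 0 ∧
          θ ^ 6 * (m 9 : ℝ) ^ 2 ≤
            max ((Nat.choose (d + 2) 2 : ℝ) - ∑ i ∈ Finset.range 9, (Nat.choose (m i + 1) 2 : ℝ))
              (∑ i ∈ Finset.Ico 9 s, (Nat.choose (m i + 1) 2 : ℝ)) ∧
          ((m 9 : ℝ) ≤ Real.exp (c * θ) ∨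
            Real.exp (-(c * θ)) * ((d : ℝ) * (m 9 : ℝ)) ≤
              |(Nat.choose (d + 2) 2 : ℝ) - ∑ i ∈ Finset.range s, (Nat.choose (m i + 1) 2 : ℝ)|)) →
      ∃ G : MvPolynomial (Fin s × Fin 3) ℂ, G ≠ 0 ∧
        ∀ P : Fin s → Fin 3 → ℂ, (∀ i, P i ≠ 0) →
          MvPolynomial.eval (fun ij : Fin s × Fin 3 => P ij.1 ij.2) G ≠ 0 →
          (Module.finrank ℂ
            (↥(MvPolynomial.homogeneousSubmodule (Fin 3) ℂ d ⊓
              ⨅ i : Fin s, Submodule.restrictScalars ℂ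
                ((Ideal.span {g : MvPolynomial (Fin 3) ℂ |
                    g.IsHomogeneous 1 ∧ MvPolynomial.eval (P i) g = 0}) ^ (m (i : ℕ))
                  : Ideal (MvPolynomial (Fin 3) ℂ)))) : ℤ)
            = max ((Nat.choose (d + 2) 2 : ℤ) -
                ∑ i : Fin s, (Nat.choose (m (i : ℕ) + 1) 2 : ℤ)) 0 := by
  obtain ⟨c, C, hc, hC, h⟩ := Pool.Agent.Helper94.AN.main_exp
  refine ⟨c, C, hc, hC, ?_⟩
  intro s m d hm hs hd hor
  rcases hor with h1 | h1 | h1 | h1 | ⟨θ, hθ, h1, h2, h3⟩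
  · exact Pool.Agent.Helper18.SG.main_room s m d hm hs hd (Or.inl h1)
  · exact Pool.Agent.Helper18.SG.main_room s m d hm hs hd (Or.inr (Or.inl h1))
  · exact Pool.Agent.Helper18.SG.main_room s m d hm hs hd (Or.inr (Or.inr (Or.inl h1)))
  · exact Pool.Agent.Helper18.SG.main_room s m d hm hs hd (Or.inr (Or.inr (Or.inr h1)))
  · apply h s m d hm hs hd
    right
    right
    refine ⟨θ, hθ, by linarith, ?_, h3⟩
    rcases le_max_iff.1 h2 with h4 | h4
    · exact Or.inl (by linarith)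
    · exact Or.inr h4

end Pool.Agent.Helper94.NF.Merge
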